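import Pool.Agent.Lib_helper47.FSS.Group

set_option autoImplicit false

/-!
# Period growth of groups determined by finite similarity structures (FSS groups)

Let `X` be a compact ultrametric space with a finite similarity structure in the sense of Hughes,
and let `f` be a finite family of elements of the FSS group of the structure (for instance a finite
monoid generating set of a finitely generated subgroup `G`).  Then there is `C > 0` such that every
element of finite order which is a product of at most `n` members of the family has order at most
`C * exp (C * n ^ 2)`.

No finiteness of the number of classes of balls is needed, so in particular the bound asked for in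
Q1 holds for all the co-context-free FSS groups studied by Farley.
-/

namespace Pool.Agent.Results.MP_b01eab_al.FSSGroups

open Pool.Agent.Lib_helper47.FSS

/-- Every finitely generated subgroup of an FSS group satisfies `p(n) ≼ exp (n ^ 2)`. -/
theorem result :
    ∀ (X : Type) [MetricSpace X] [IsUltrametricDist X] [CompactSpace X]
      (𝓢 : FinSimStructure X) (k : ℕ) (f : Fin k → FSSGroup 𝓢),
      ∃ C : ℝ, 0 < C ∧ ∀ (n : ℕ) (w : List (Fin k)), w.length ≤ n →
        IsOfFinOrder (w.map f).prod →
        ((orderOf (w.map f).prod : ℕ) : ℝ) ≤ C * Real.exp (C * (n : ℝ) ^ 2) := by
  intro X _ _ _ 𝓢 k f
  exact periodGrowth 𝓢 k f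

end Pool.Agent.Results.MP_b01eab_al.FSSGroups
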