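import Pool.Agent.Lib_helper6.IGP.Final

/-!
# Period growth when the coword problem is deterministic after a guess

Let `f : Fin k → G` be finitely many elements of a group `G`.  Let `M` be a deterministic pushdown
automaton and, for `s` in a finite set `ι`, let `L s = M.guessLang (I s)` be the set of all words
which `M` accepts when it is started in some state `q` with some stack from the regular language
`I s q` (this is the only nondeterministic choice).  Suppose that nontriviality in `G` of the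
value of a word `w` is a monotone function `Φ` of the set of all pairs `(s, j)` such that the
rotation of `w` by `j` letters is in `L s`; for example, that the coword problem is `L s` or the
cyclic closure of `L s`.  Then the bound asked for in Q1 holds, and every prime power dividing the
order of a torsion element of length at most `n` is at most `C·exp(C·n)`.
-/

set_option autoImplicit false

namespace Pool.Agent.IGP

open Real

theorem two_pow_le_exp (C : ℕ) {x : ℕ} {y : ℝ} (h : (x : ℝ) ≤ y) :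
    ((2 ^ (C * x) : ℕ) : ℝ) ≤ (C + 1) * Real.exp ((C + 1) * y) := by
  have h2 : (2 : ℝ) ≤ exp 1 := by
    have := Real.add_one_le_exp (1 : ℝ)
    linarith
  have hC : (0 : ℝ) ≤ C := Nat.cast_nonneg C
  have hx : (0 : ℝ) ≤ x := Nat.cast_nonneg x
  have h1 : ((2 ^ (C * x) : ℕ) : ℝ) ≤ exp ((C : ℝ) * x) := by
    push_cast
    calc (2 : ℝ) ^ (C * x) ≤ (exp 1) ^ (C * x) := pow_le_pow_left₀ (by norm_num) h2 _
      _ = exp ((C : ℝ) * x) := by rw [← Real.exp_nat_mul, mul_one, Nat.cast_mul]
  have h3 : (C : ℝ) * x ≤ (C + 1) * y := by nlinarith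
  calc ((2 ^ (C * x) : ℕ) : ℝ) ≤ exp ((C : ℝ) * x) := h1
    _ ≤ exp ((C + 1) * y) := Real.exp_le_exp.mpr h3
    _ ≤ (C + 1) * exp ((C + 1) * y) := by
        nlinarith [Real.exp_pos (((C : ℝ) + 1) * y)]

end Pool.Agent.IGP

namespace Pool.Agent.Results.MP_b01eab_al.GuessThenDeterministic

open Pool.Agent.IGP

theorem result (G : Type) [Group G] (k : ℕ) (f : Fin k → G) (Q Γ ι : Type) [Finite Q] [Finite Γ]
    [Finite ι] (M : DPDA (Fin k) Q Γ) (I : ι → Q → Language Γ)
    (hI : ∀ s q, (I s q).IsRegular) (Φ : Set (ι × ℕ) → Prop) (hΦ : Monotone Φ)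
    (h : ∀ w : List (Fin k), (w.map f).prod ≠ 1 ↔
      Φ {x : ι × ℕ | w.rotate x.2 ∈ M.guessLang (I x.1)}) :
    ∃ C : ℝ, 0 < C ∧ ∀ (n : ℕ) (w : List (Fin k)), w.length ≤ n →
      IsOfFinOrder (w.map f).prod →
      (∀ p e : ℕ, p.Prime → p ^ e ∣ orderOf (w.map f).prod →
        ((p ^ e : ℕ) : ℝ) ≤ C * Real.exp (C * n)) ∧
      ((orderOf (w.map f).prod : ℕ) : ℝ) ≤ C * Real.exp (C * (n : ℝ) ^ 2) := by
  obtain ⟨C, hC⟩ := main f M I hI Φ hΦ h
  refine ⟨C + 1, by positivity, fun n w hn hw => ?_⟩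
  obtain ⟨h1, h2⟩ := hC w hw
  have hn' : (w.length : ℝ) ≤ n := by exact_mod_cast hn
  constructor
  · intro p e hp hd
    have h3 : ((p ^ e : ℕ) : ℝ) ≤ ((2 ^ (C * w.length) : ℕ) : ℝ) := by
      exact_mod_cast h1 p e hp hd
    exact h3.trans (two_pow_le_exp C hn')
  · have h3 : ((orderOf (w.map f).prod : ℕ) : ℝ) ≤ ((2 ^ (C * w.length ^ 2) : ℕ) : ℝ) := by
      exact_mod_cast h2
    refine h3.trans (two_pow_le_exp C ?_)
    push_cast
    exact pow_le_pow_left₀ (Nat.cast_nonneg _) hn' 2

end Pool.Agent.Results.MP_b01eab_al.GuessThenDeterministic
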