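import Mathlib
import Pool.Agent.Lib_helper85.CoCF.Orders

/-!
# Period growth of co-context-free groups: a general upper bound

Let `f : Fin k → G` be finitely many elements of a group such that the set of words over `Fin k`
with nontrivial value in `G` is context-free.  Then there is `C > 0` such that for every word `w`
of length at most `n` whose value `γ` has finite order:

* every prime power dividing the order of `γ` is at most `C·exp(C·n²)`;
* the order of `γ` is at most `(C·exp(C·n²))^ω`, `ω` the number of distinct primes dividing it;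
* the order of `γ` is at most `C·exp(C·n⁴)`.
-/

namespace CoCF

open Real

theorem nat_bounds {q N n : ℕ} (h : N ≤ n) :
    ((2 ^ (q * (N * N) + 1) : ℕ) : ℝ) ≤ (2 * q ^ 2 + 2) * exp ((2 * q ^ 2 + 2) * (n : ℝ) ^ 2) ∧
    (((2 ^ (q * (N * N) + 1)) ^ (q * (N * N)) : ℕ) : ℝ) ≤
      (2 * q ^ 2 + 2) * exp ((2 * q ^ 2 + 2) * (n : ℝ) ^ 4) := by
  have hNn : (N : ℝ) ≤ n := by exact_mod_cast h
  have hN0 : (0 : ℝ) ≤ N := Nat.cast_nonneg N
  have hq0 : (0 : ℝ) ≤ q := Nat.cast_nonneg q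
  have h2 : (2 : ℝ) ≤ exp 1 := by
    have := Real.add_one_le_exp (1 : ℝ)
    linarith
  have hN2 : (N : ℝ) ^ 2 ≤ (n : ℝ) ^ 2 := pow_le_pow_left₀ hN0 hNn 2
  have hN4 : (N : ℝ) ^ 4 ≤ (n : ℝ) ^ 4 := pow_le_pow_left₀ hN0 hNn 4
  have hexp : ∀ m : ℕ, (2 : ℝ) ^ m ≤ exp m := by
    intro m
    calc (2 : ℝ) ^ m ≤ (exp 1) ^ m := pow_le_pow_left₀ (by norm_num) h2 m
      _ = exp m := by rw [← Real.exp_nat_mul, mul_one]
  constructor
  · push_cast
    rw [pow_succ]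
    have h3 := hexp (q * (N * N))
    push_cast at h3
    have h4 : (q : ℝ) * (N * N) ≤ (2 * q ^ 2 + 2) * (n : ℝ) ^ 2 := by
      have h5 : (q : ℝ) ≤ 2 * q ^ 2 + 2 := by nlinarith [sq_nonneg ((q : ℝ) - 1)]
      calc (q : ℝ) * (N * N) = q * (N : ℝ) ^ 2 := by ring
        _ ≤ q * (n : ℝ) ^ 2 := mul_le_mul_of_nonneg_left hN2 hq0
        _ ≤ (2 * q ^ 2 + 2) * (n : ℝ) ^ 2 := mul_le_mul_of_nonneg_right h5 (sq_nonneg _)
    calc (2 : ℝ) ^ (q * (N * N)) * 2 ≤ exp ((q : ℝ) * (N * N)) * 2 :=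
          mul_le_mul_of_nonneg_right h3 (by norm_num)
      _ = 2 * exp ((q : ℝ) * (N * N)) := by ring
      _ ≤ (2 * q ^ 2 + 2) * exp ((2 * q ^ 2 + 2) * (n : ℝ) ^ 2) := by
        apply mul_le_mul _ (Real.exp_le_exp.mpr h4) (Real.exp_pos _).le (by positivity)
        nlinarith [sq_nonneg (q : ℝ)]
  · rw [← pow_mul]
    push_cast
    have h3 := hexp ((q * (N * N) + 1) * (q * (N * N)))
    push_cast at h3
    have h4 : ((q : ℝ) * (N * N) + 1) * (q * (N * N)) ≤ (2 * q ^ 2 + 2) * (n : ℝ) ^ 4 := by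
      have h5 : ((q : ℝ) * (N * N)) ≤ ((q : ℝ) * (N * N)) ^ 2 := by
        have : (q * (N * N)) ≤ (q * (N * N)) ^ 2 := Nat.le_self_pow (by norm_num) _
        exact_mod_cast this
      calc ((q : ℝ) * (N * N) + 1) * (q * (N * N))
          = ((q : ℝ) * (N * N)) ^ 2 + (q : ℝ) * (N * N) := by ring
        _ ≤ 2 * ((q : ℝ) * (N * N)) ^ 2 := by linarith
        _ = 2 * q ^ 2 * (N : ℝ) ^ 4 := by ring
        _ ≤ 2 * q ^ 2 * (n : ℝ) ^ 4 := mul_le_mul_of_nonneg_left hN4 (by positivity)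
        _ ≤ (2 * q ^ 2 + 2) * (n : ℝ) ^ 4 :=
          mul_le_mul_of_nonneg_right (by linarith) (by positivity)
    calc (2 : ℝ) ^ ((q * (N * N) + 1) * (q * (N * N)))
        ≤ exp (((q : ℝ) * (N * N) + 1) * (q * (N * N))) := h3
      _ ≤ exp ((2 * q ^ 2 + 2) * (n : ℝ) ^ 4) := Real.exp_le_exp.mpr h4
      _ = 1 * exp ((2 * q ^ 2 + 2) * (n : ℝ) ^ 4) := by ring
      _ ≤ (2 * q ^ 2 + 2) * exp ((2 * q ^ 2 + 2) * (n : ℝ) ^ 4) := by
        apply mul_le_mul_of_nonneg_right _ (Real.exp_pos _).le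
        nlinarith [sq_nonneg (q : ℝ)]

end CoCF

namespace Pool.Agent.Results.MP_b01eab_al.PeriodBound

open CoCF in
/-- Co-context-free groups: orders of torsion elements given by words of length at most `n`. -/
theorem result :
    ∀ (G : Type) [Group G] (k : ℕ) (f : Fin k → G),
      Language.IsContextFree
        ({w : List (Fin k) | (w.map f).prod ≠ 1} : Language (Fin k)) →
      ∃ C : ℝ, 0 < C ∧ ∀ (n : ℕ) (w : List (Fin k)), w.length ≤ n →
        IsOfFinOrder (w.map f).prod →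
        (∀ p e : ℕ, p.Prime → p ^ e ∣ orderOf (w.map f).prod →
          ((p ^ e : ℕ) : ℝ) ≤ C * Real.exp (C * (n : ℝ) ^ 2)) ∧
        ((orderOf (w.map f).prod : ℕ) : ℝ) ≤
          (C * Real.exp (C * (n : ℝ) ^ 2)) ^ (orderOf (w.map f).prod).primeFactors.card ∧
        ((orderOf (w.map f).prod : ℕ) : ℝ) ≤ C * Real.exp (C * (n : ℝ) ^ 4) := by
  intro G _ k f hCF
  obtain ⟨g, hg⟩ := hCF
  obtain ⟨Q, hQ⟩ := exists_items g
  refine ⟨2 * (Q.card : ℝ) ^ 2 + 2, by positivity, ?_⟩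
  intro n w hwn hw
  obtain ⟨h1, h2⟩ := order_bounds f g hg hQ w hw
  obtain ⟨h3, h4⟩ := nat_bounds (q := Q.card) hwn
  have hpp : ∀ p e : ℕ, p.Prime → p ^ e ∣ orderOf (w.map f).prod →
      ((p ^ e : ℕ) : ℝ) ≤ (2 * (Q.card : ℝ) ^ 2 + 2) *
        Real.exp ((2 * (Q.card : ℝ) ^ 2 + 2) * (n : ℝ) ^ 2) := by
    intro p e hp hd
    have h5 : ((p ^ e : ℕ) : ℝ) ≤ ((2 ^ (Q.card * (w.length * w.length) + 1) : ℕ) : ℝ) := by
      exact_mod_cast h1 p e hp hd
    exact h5.trans h3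
  refine ⟨hpp, ?_, ?_⟩
  · have hm0 : orderOf (w.map f).prod ≠ 0 := hw.orderOf_pos.ne'
    have h5 := Nat.prod_factorization_pow_eq_self hm0
    conv_lhs => rw [← h5]
    rw [Finsupp.prod, Nat.support_factorization, Nat.cast_prod, ← Finset.prod_const]
    refine Finset.prod_le_prod (fun p _ => Nat.cast_nonneg _) fun p hp => ?_
    exact hpp p _ (Nat.prime_of_mem_primeFactors hp) (Nat.ordProj_dvd _ p)
  · have h5 : ((orderOf (w.map f).prod : ℕ) : ℝ) ≤
        (((2 ^ (Q.card * (w.length * w.length) + 1)) ^ (Q.card * (w.length * w.length)) : ℕ) : ℝ) := by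
      exact_mod_cast h2
    exact h5.trans h4

end Pool.Agent.Results.MP_b01eab_al.PeriodBound
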